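import Pool.Agent.Y17.N.Defs
import Pool.Agent.Z419.Bil1
import Pool.Agent.Z700.SG

/-!
# Orientations and lines, pairs of vectors with a common line (S_ORI, S_PR)
-/

set_option autoImplicit false

namespace Pool.Agent.Y441.ZN

open Finset Matrix
open Pool.Agent.Z700 (V3 vec Ln n0 ep sgl)
open Pool.Agent.Z700.SGw (mem_vec dot3 ep_mk Od od_of od_prod cls1 cls2 n1 ne_zero3)
open Pool.Agent.Y17.N

/-- the number of vectors with a given line and orientation -/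
noncomputable def Ct (N : ℤ) (n : Fin 3 → ZMod 7) (β : ZMod 7) (ε : ℤ) : ℤ :=
  (((vec N).filter fun v => Ln n β v ∧ ep v = ε).card : ℤ)

/-- transport of the counts along a bijection -/
theorem ct_map (N : ℤ) (n n' : Fin 3 → ZMod 7) (β : ZMod 7) (ε ε' : ℤ) (T S : V3 → V3)
    (hTS : ∀ v, T (S v) = v) (hST : ∀ v, S (T v) = v)
    (hd : ∀ v, T v ⬝ᵥ T v = v ⬝ᵥ v)
    (hL : ∀ v, Ln n' β (T v) ↔ Ln n β v)
    (he : ∀ v ∈ vec N, (ep (T v) = ε' ↔ ep v = ε)) : Ct N n' β ε' = Ct N n β ε := by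
  unfold Ct
  congr 1
  symm
  refine Finset.card_nbij' T S ?_ ?_ ?_ ?_
  · intro v hv
    rw [Finset.mem_coe, Finset.mem_filter] at hv ⊢
    refine ⟨?_, (hL v).2 hv.2.1, (he v hv.1).2 hv.2.2⟩
    rw [mem_vec, hd, ← mem_vec]
    exact hv.1
  · intro v hv
    rw [Finset.mem_coe, Finset.mem_filter] at hv ⊢
    have h1 : S v ∈ vec N := by
      rw [mem_vec, ← hd, hTS, ← mem_vec]
      exact hv.1
    refine ⟨h1, ?_, ?_⟩
    · rw [← hL, hTS]; exact hv.2.1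
    · rw [← he _ h1, hTS]; exact hv.2.2
  · intro v _
    exact hST v
  · intro v _
    exact hTS v

theorem ct_s1 (N : ℤ) (n : Fin 3 → ZMod 7) (β : ZMod 7) (ε : ℤ) :
    Ct N ![-n 0, -n 1, n 2] β ε = Ct N n β ε := by
  refine ct_map N n ![-n 0, -n 1, n 2] β ε ε (fun v => ![-v 0, -v 1, v 2])
    (fun v => ![-v 0, -v 1, v 2]) ?_ ?_ ?_ ?_ ?_
  · intro v
    ext i
    fin_cases i <;> simp
  · intro v
    ext i
    fin_cases i <;> simp
  · intro v
    rw [dot3, dot3]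
    simp
  · intro v
    unfold Ln
    simp only [Matrix.cons_val_zero, Matrix.cons_val_one, Matrix.cons_val]
    push_cast
    constructor
    · rintro ⟨h1, h2, h3⟩
      refine ⟨?_, ?_, ?_⟩
      · linear_combination -h1
      · linear_combination -h2
      · linear_combination h3
    · rintro ⟨h1, h2, h3⟩
      refine ⟨?_, ?_, ?_⟩
      · linear_combination -h1
      · linear_combination -h2
      · linear_combination h3
  · intro v _
    rw [ep_mk, show -v 0 * -v 1 * v 2 = v 0 * v 1 * v 2 by ring]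
    rfl

theorem ct_s2 (N : ℤ) (n : Fin 3 → ZMod 7) (β : ZMod 7) (ε : ℤ) :
    Ct N ![n 0, -n 1, -n 2] β ε = Ct N n β ε := by
  refine ct_map N n ![n 0, -n 1, -n 2] β ε ε (fun v => ![v 0, -v 1, -v 2])
    (fun v => ![v 0, -v 1, -v 2]) ?_ ?_ ?_ ?_ ?_
  · intro v
    ext i
    fin_cases i <;> simp
  · intro v
    ext i
    fin_cases i <;> simp
  · intro v
    rw [dot3, dot3]
    simp
  · intro v
    unfold Ln
    simp only [Matrix.cons_val_zero, Matrix.cons_val_one, Matrix.cons_val]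
    push_cast
    constructor
    · rintro ⟨h1, h2, h3⟩
      refine ⟨?_, ?_, ?_⟩
      · linear_combination h1
      · linear_combination -h2
      · linear_combination -h3
    · rintro ⟨h1, h2, h3⟩
      refine ⟨?_, ?_, ?_⟩
      · linear_combination h1
      · linear_combination -h2
      · linear_combination -h3
  · intro v _
    rw [ep_mk, show v 0 * -v 1 * -v 2 = v 0 * v 1 * v 2 by ring]
    rfl

theorem ct_g1 (N : ℤ) (hN : Od N) (n : Fin 3 → ZMod 7) (β : ZMod 7) (ε : ℤ)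
    (hε : ε = 1 ∨ ε = -1) :
    Ct N ![n 0, n 2, -n 1] β (-ε) = Ct N n β ε := by
  refine ct_map N n ![n 0, n 2, -n 1] β ε (-ε) (fun v => ![v 0, v 2, -v 1])
    (fun v => ![v 0, -v 2, v 1]) ?_ ?_ ?_ ?_ ?_
  · intro v
    ext i
    fin_cases i <;> simp
  · intro v
    ext i
    fin_cases i <;> simp
  · intro v
    rw [dot3, dot3]
    simp only [Matrix.cons_val_zero, Matrix.cons_val_one, Matrix.cons_val]
    ring
  · intro v
    unfold Ln
    simp only [Matrix.cons_val_zero, Matrix.cons_val_one, Matrix.cons_val]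
    push_cast
    constructor
    · rintro ⟨h1, h2, h3⟩
      refine ⟨?_, ?_, ?_⟩
      · linear_combination h1
      · linear_combination -h3
      · linear_combination h2
    · rintro ⟨h1, h2, h3⟩
      refine ⟨?_, ?_, ?_⟩
      · linear_combination h1
      · linear_combination h3
      · linear_combination -h2
  · intro v hv
    obtain ⟨a, b, c⟩ := hN v hv
    have hp := od_prod a b c
    rw [ep_mk, show v 0 * v 2 * -v 1 = -(v 0 * v 1 * v 2) by ring, ep]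
    generalize v 0 * v 1 * v 2 = t at hp ⊢
    have h4 : t % 4 = 1 ∨ t % 4 = 3 := by omega
    rcases h4 with h4 | h4
    · have : ¬ (-t) % 4 = 1 := by omega
      rw [if_neg this, if_pos h4]
      rcases hε with rfl | rfl <;> simp
    · have h5 : (-t) % 4 = 1 := by omega
      have h6 : ¬ t % 4 = 1 := by omega
      rw [if_pos h5, if_neg h6]
      rcases hε with rfl | rfl <;> simp

theorem ct_smul (N : ℤ) (n : Fin 3 → ZMod 7) (β k : ZMod 7) (ε : ℤ) (hk : k ≠ 0) :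
    Ct N (fun i => k * n i) β ε = Ct N n β ε := by
  have : Fact (Nat.Prime 7) := ⟨by norm_num⟩
  unfold Ct
  have : ∀ v, Ln (fun i => k * n i) β v ↔ Ln n β v := by
    intro v
    unfold Ln
    constructor
    · rintro ⟨h1, h2, h3⟩
      refine ⟨mul_left_cancel₀ hk ?_, mul_left_cancel₀ hk ?_, mul_left_cancel₀ hk ?_⟩
      · linear_combination h1
      · linear_combination h2
      · linear_combination h3
    · rintro ⟨h1, h2, h3⟩
      refine ⟨?_, ?_, ?_⟩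
      · linear_combination k * h1
      · linear_combination k * h2
      · linear_combination k * h3
  simp only [this]

theorem ct_norm (N : ℤ) (a b : ZMod 7) (β : ZMod 7) (ε : ℤ) (n : Fin 3 → ZMod 7) (k : ZMod 7)
    (hk : k ≠ 0)
    (h : (n 0 = k * 1 ∧ n 1 = k * a ∧ n 2 = k * b) ∨
      (n 0 = k * -1 ∧ n 1 = k * -a ∧ n 2 = k * b) ∨ (n 0 = k * 1 ∧ n 1 = k * -a ∧ n 2 = k * -b) ∨
      (n 0 = k * -1 ∧ n 1 = k * a ∧ n 2 = k * -b)) :
    Ct N n β ε = Ct N ![1, a, b] β ε := by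
  rcases h with ⟨h0, h1, h2⟩ | ⟨h0, h1, h2⟩ | ⟨h0, h1, h2⟩ | ⟨h0, h1, h2⟩
  · have hn : n = fun i => k * (![1, a, b] : Fin 3 → ZMod 7) i := by
      ext i
      fin_cases i
      · simpa using h0
      · simpa using h1
      · simpa using h2
    rw [hn, ct_smul _ _ _ _ _ hk]
  · have hn : n = fun i => k * (![-(![1, a, b] : Fin 3 → ZMod 7) 0, -(![1, a, b] : Fin 3 → ZMod 7) 1,
        (![1, a, b] : Fin 3 → ZMod 7) 2] : Fin 3 → ZMod 7) i := by
      ext i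
      fin_cases i
      · simpa using h0
      · simpa using h1
      · simpa using h2
    rw [hn, ct_smul _ _ _ _ _ hk, ct_s1]
  · have hn : n = fun i => k * (![(![1, a, b] : Fin 3 → ZMod 7) 0, -(![1, a, b] : Fin 3 → ZMod 7) 1,
        -(![1, a, b] : Fin 3 → ZMod 7) 2] : Fin 3 → ZMod 7) i := by
      ext i
      fin_cases i
      · simpa using h0
      · simpa using h1
      · simpa using h2
    rw [hn, ct_smul _ _ _ _ _ hk, ct_s2]
  · set m : Fin 3 → ZMod 7 := ![(![1, a, b] : Fin 3 → ZMod 7) 0, -(![1, a, b] : Fin 3 → ZMod 7) 1,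
        -(![1, a, b] : Fin 3 → ZMod 7) 2] with hm
    have hn : n = fun i => k * (![-m 0, -m 1, m 2] : Fin 3 → ZMod 7) i := by
      ext i
      fin_cases i
      · simpa [hm] using h0
      · simpa [hm] using h1
      · simpa [hm] using h2
    rw [hn, ct_smul _ _ _ _ _ hk, ct_s1, hm, ct_s2]

theorem ct_pos (N : ℤ) (β : ZMod 7) (ε : ℤ) (n : Fin 3 → ZMod 7) (hn : n ≠ 0)
    (hi : n 0 ^ 2 + n 1 ^ 2 + n 2 ^ 2 = 0) (hs : sgl n = 1) : Ct N n β ε = Ct N n0 β ε := by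
  have hs' : n 1 ^ 2 = 4 * n 0 ^ 2 := by
    unfold sgl at hs
    by_contra hc
    rw [if_neg hc] at hs
    norm_num at hs
  obtain ⟨k, hk, h⟩ := cls1 _ _ _ hi (ne_zero3 hn) hs'
  exact ct_norm N 2 3 β ε n k hk h

theorem ct_neg (N : ℤ) (β : ZMod 7) (ε : ℤ) (n : Fin 3 → ZMod 7) (hn : n ≠ 0)
    (hi : n 0 ^ 2 + n 1 ^ 2 + n 2 ^ 2 = 0) (hs : sgl n ≠ 1) : Ct N n β ε = Ct N n1 β ε := by
  have hs' : ¬ n 1 ^ 2 = 4 * n 0 ^ 2 := by
    unfold sgl at hs
    intro hc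
    rw [if_pos hc] at hs
    exact hs rfl
  obtain ⟨k, hk, h⟩ := cls2 _ _ _ hi (ne_zero3 hn) hs'
  exact ct_norm N 3 2 β ε n k hk h

/-- the orientation exchanges the two types -/
theorem ct_n0 (N : ℤ) (hN : Od N) (β : ZMod 7) (ε : ℤ) (hε : ε = 1 ∨ ε = -1) :
    Ct N n1 β (-ε) = Ct N n0 β ε := by
  rw [← ct_g1 N hN n0 β ε hε]
  symm
  apply ct_neg
  · intro h
    have := congrFun h 0
    simp [n0] at this
  · simp only [n0, Matrix.cons_val_zero, Matrix.cons_val_one, Matrix.cons_val]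
    decide
  · unfold sgl
    simp only [n0, Matrix.cons_val_zero, Matrix.cons_val_one, Matrix.cons_val]
    decide

theorem ep_cases (v : V3) : ep v = 1 ∨ ep v = -1 := by
  unfold ep
  split_ifs
  · exact Or.inl rfl
  · exact Or.inr rfl

theorem t0_eq (N : ℤ) (β : ZMod 7) : t0 N β = Ct N n0 β 1 + Ct N n0 β (-1) := by
  unfold t0 Ct
  rw [Finset.card_filter, Finset.card_filter, Finset.card_filter]
  push_cast
  rw [← Finset.sum_add_distrib]
  refine Finset.sum_congr rfl fun v _ => ?_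
  rcases ep_cases v with h | h <;> by_cases a : Ln n0 β v <;> simp [a, h]

theorem g0_eq (N : ℤ) (β : ZMod 7) : g0 N β = Ct N n0 β 1 - Ct N n0 β (-1) := by
  unfold g0 Ct
  rw [Finset.card_filter, Finset.card_filter, Finset.sum_filter]
  push_cast
  rw [← Finset.sum_sub_distrib]
  refine Finset.sum_congr rfl fun v _ => ?_
  rcases ep_cases v with h | h <;> by_cases a : Ln n0 β v <;> simp [a, h]

theorem sgl_cases (n : Fin 3 → ZMod 7) : sgl n = 1 ∨ sgl n = -1 := by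
  unfold sgl
  split_ifs
  · exact Or.inl rfl
  · exact Or.inr rfl

/-- ORI: dependence on the line and the orientation -/
theorem t_ORI : S_ORI := by
  intro N hN β _ n hn hi ε hε
  have hO := od_of hN
  change 2 * Ct N n β ε = _
  rw [t0_eq, g0_eq]
  have k1 := ct_n0 N hO β 1 (Or.inl rfl)
  have k2 := ct_n0 N hO β (-1) (Or.inr rfl)
  rw [neg_neg] at k2
  by_cases hs : sgl n = 1
  · rw [ct_pos _ _ _ _ hn hi hs, hs]
    rcases hε with rfl | rfl <;> ring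
  · have hs' : sgl n = -1 := (sgl_cases n).resolve_left hs
    rw [ct_neg _ _ _ _ hn hi hs, hs']
    rcases hε with rfl | rfl
    · rw [k2]; ring
    · rw [k1]; ring

/-! ### pairs -/

lemma norm_of_ln {n : Fin 3 → ZMod 7} {β : ZMod 7} {v : V3} (hβ : β ≠ 0) (hn : n ≠ 0)
    (h : Ln n β v) : ((v ⬝ᵥ v : ℤ) : ZMod 7) = -β ^ 2 := by
  have : Fact (Nat.Prime 7) := ⟨by norm_num⟩
  have hex : ∃ i, n i ≠ 0 := by
    by_contra h
    push Not at h
    exact hn (funext h)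
  obtain ⟨h0, h1, h2⟩ := h
  rw [Pool.Agent.Z419.dot_cast]
  generalize (v 0 : ZMod 7) = a0 at *
  generalize (v 1 : ZMod 7) = a1 at *
  generalize (v 2 : ZMod 7) = a2 at *
  have e1 : a0 * n 0 + a1 * n 1 + a2 * n 2 = 0 := by
    have : β * (a0 * n 0 + a1 * n 1 + a2 * n 2) = 0 := by
      linear_combination - a0 * h0 - a1 * h1 - a2 * h2
    exact (mul_eq_zero.1 this).resolve_left hβ
  have key : ∀ i, n i * (a0 * a0 + a1 * a1 + a2 * a2 + β ^ 2) = 0 := by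
    intro i
    fin_cases i
    · simp only [Fin.zero_eta]
      linear_combination a0 * e1 - β * h0 - a1 * h2 + a2 * h1
    · simp only [Fin.mk_one]
      linear_combination a1 * e1 - β * h1 - a2 * h0 + a0 * h2
    · simp only [Fin.reduceFinMk]
      linear_combination a2 * e1 - β * h2 - a0 * h1 + a1 * h0
  obtain ⟨i, hi⟩ := hex
  have := (mul_eq_zero.1 (key i)).resolve_left hi
  linear_combination this

lemma dot_even_ne {N1 N2 : ℤ} (hN1 : N1 % 8 = 3) (hN2 : N2 % 8 = 3) {v w : V3}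
    (hv : v ⬝ᵥ v = N1) (hw : w ⬝ᵥ w = N2) : (v ⬝ᵥ w) % 2 = 1 := by
  obtain ⟨a, b, c⟩ := od_of hN1 v (mem_vec.2 hv)
  obtain ⟨a', b', c'⟩ := od_of hN2 w (mem_vec.2 hw)
  rw [dot3]
  have e1 : (v 0 * w 0) % 2 = 1 := by rw [Int.mul_emod, a, a']; rfl
  have e2 : (v 1 * w 1) % 2 = 1 := by rw [Int.mul_emod, b, b']; rfl
  have e3 : (v 2 * w 2) % 2 = 1 := by rw [Int.mul_emod, c, c']; rfl
  omega

/-- the inner product modulo four in terms of the orientations -/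
lemma dot_ep {N1 N2 : ℤ} (hN1 : N1 % 8 = 3) (hN2 : N2 % 8 = 3) {v w : V3}
    (hv : v ⬝ᵥ v = N1) (hw : w ⬝ᵥ w = N2) (ε : ℤ) (hε : ε = 1 ∨ ε = -1) :
    (4 : ℤ) ∣ v ⬝ᵥ w - ε ↔ ep w = -ε * ep v := by
  have h1 := Pool.Agent.Z419.dot_mod4 hN1 hN2 hv hw
  have h2 := dot_even_ne hN1 hN2 hv hw
  rcases hε with rfl | rfl
  · have h3 : (4 : ℤ) ∣ v ⬝ᵥ w - 1 ↔ (v ⬝ᵥ w) % 4 = 1 := by omega
    rw [h3, h1]
    rcases ep_cases v with a | a <;> rcases ep_cases w with b | b <;> rw [a, b] <;> norm_num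
  · have h3 : (4 : ℤ) ∣ v ⬝ᵥ w - -1 ↔ ¬ (v ⬝ᵥ w) % 4 = 1 := by omega
    rw [h3, h1]
    rcases ep_cases v with a | a <;> rcases ep_cases w with b | b <;> rw [a, b] <;> norm_num

lemma ct_prod (N1 N2 : ℤ) (β1 β2 : ZMod 7) (n : Fin 3 → ZMod 7) (ε : ℤ) (hε : ε = 1 ∨ ε = -1) :
    ∑ q ∈ vec N1 ×ˢ vec N2, (if ep q.2 = -ε * ep q.1 ∧ Ln n β1 q.1 ∧ Ln n β2 q.2 then (1 : ℤ) else 0) =
      Ct N1 n β1 1 * Ct N2 n β2 (-ε) + Ct N1 n β1 (-1) * Ct N2 n β2 ε := by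
  unfold Ct
  rw [Finset.card_filter, Finset.card_filter, Finset.card_filter, Finset.card_filter]
  push_cast
  rw [Finset.sum_mul_sum, Finset.sum_mul_sum, ← Finset.sum_product', ← Finset.sum_product',
    ← Finset.sum_add_distrib]
  refine Finset.sum_congr rfl fun q _ => ?_
  by_cases a : Ln n β1 q.1
  · by_cases b : Ln n β2 q.2
    · rcases hε with rfl | rfl <;> rcases ep_cases q.1 with h1 | h1 <;>
        rcases ep_cases q.2 with h2 | h2 <;> rw [h1, h2] <;> simp [a, b]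
    · simp [b]
  · simp [a]

lemma ct_zero {N : ℤ} {β : ZMod 7} (hβ : β ≠ 0) {n : Fin 3 → ZMod 7}
    (hn : n 0 ^ 2 + n 1 ^ 2 + n 2 ^ 2 ≠ 0) (ε : ℤ) : Ct N n β ε = 0 := by
  unfold Ct
  rw [Finset.filter_false_of_mem]
  · rfl
  · rintro v _ ⟨h, _⟩
    exact hn (Pool.Agent.Z419.iso_of_ln hβ h)

/-- PR: the pairs with a common line and inner product `= ε mod 4` -/
theorem t_PR (h : S_ORI) : S_PR := by
  intro N1 N2 hN1 hN2 β1 β2 hβ1 hβ2 ε hε
  have : Fact (Nat.Prime 7) := ⟨by norm_num⟩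
  have e1 : (((PL N1 N2 β1 β2).filter fun q => (4 : ℤ) ∣ q.1 ⬝ᵥ q.2 - ε).card : ℤ) =
      ∑ q ∈ vec N1 ×ˢ vec N2, if ep q.2 = -ε * ep q.1 ∧
        (∃ n : Fin 3 → ZMod 7, n ≠ 0 ∧ Ln n β1 q.1 ∧ Ln n β2 q.2) then (1 : ℤ) else 0 := by
    unfold PL
    rw [Finset.filter_filter, Finset.card_filter]
    push_cast
    refine Finset.sum_congr rfl fun q hq => ?_
    rw [Finset.mem_product, mem_vec, mem_vec] at hq
    exact if_congr ((and_congr_right' (dot_ep hN1 hN2 hq.1 hq.2 ε hε)).trans and_comm) rfl rfl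
  have e2 : ∀ q ∈ vec N1 ×ˢ vec N2, (6 * if ep q.2 = -ε * ep q.1 ∧
      (∃ n : Fin 3 → ZMod 7, n ≠ 0 ∧ Ln n β1 q.1 ∧ Ln n β2 q.2) then (1 : ℤ) else 0) =
      ∑ n : Fin 3 → ZMod 7, if n ≠ 0 then
        (if ep q.2 = -ε * ep q.1 ∧ Ln n β1 q.1 ∧ Ln n β2 q.2 then (1 : ℤ) else 0) else 0 := by
    intro q hq
    by_cases hep : ep q.2 = -ε * ep q.1
    · have h4 : ∀ n : Fin 3 → ZMod 7, (if n ≠ 0 then
        (if ep q.2 = -ε * ep q.1 ∧ Ln n β1 q.1 ∧ Ln n β2 q.2 then (1 : ℤ) else 0) else 0) =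
        if n ≠ 0 ∧ Ln n β1 q.1 ∧ Ln n β2 q.2 then (1 : ℤ) else 0 := by
        intro n
        by_cases hn : n ≠ 0
        · simp only [hn, hep, ne_eq, not_false_eq_true, if_true, true_and]
        · simp only [hn, false_and, if_false]
      rw [Finset.sum_congr rfl fun n _ => h4 n]
      by_cases hc : ∃ n : Fin 3 → ZMod 7, n ≠ 0 ∧ Ln n β1 q.1 ∧ Ln n β2 q.2
      · have hv7 : ((q.1 ⬝ᵥ q.1 : ℤ) : ZMod 7) ≠ 0 := by
          obtain ⟨n, hn, hL, _⟩ := hc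
          rw [norm_of_ln hβ1 hn hL]
          exact neg_ne_zero.2 (pow_ne_zero 2 hβ1)
        rw [Pool.Agent.Z419.six β1 β2 q.1 q.2 hβ1 hv7 1, if_pos ⟨hep, hc⟩, if_pos hc]
      · rw [if_neg (fun h => hc h.2), mul_zero]
        symm
        refine Finset.sum_eq_zero fun n _ => ?_
        rw [if_neg (fun h => hc ⟨n, h⟩)]
    · simp only [hep, false_and, if_false, mul_zero, ite_self, Finset.sum_const_zero]
  have e3 : 6 * (((PL N1 N2 β1 β2).filter fun q => (4 : ℤ) ∣ q.1 ⬝ᵥ q.2 - ε).card : ℤ) =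
      ∑ n : Fin 3 → ZMod 7, if n ≠ 0 ∧ n 0 ^ 2 + n 1 ^ 2 + n 2 ^ 2 = 0 then
        Ct N1 n β1 1 * Ct N2 n β2 (-ε) + Ct N1 n β1 (-1) * Ct N2 n β2 ε else 0 := by
    rw [e1, Finset.mul_sum, Finset.sum_congr rfl e2, Finset.sum_comm]
    refine Finset.sum_congr rfl fun n _ => ?_
    by_cases hn : n ≠ 0
    · simp only [if_pos hn]
      rw [ct_prod _ _ _ _ _ _ hε]
      by_cases hi : n 0 ^ 2 + n 1 ^ 2 + n 2 ^ 2 = 0
      · rw [if_pos ⟨hn, hi⟩]
      · rw [if_neg (fun h => hi h.2), ct_zero hβ1 hi, ct_zero hβ1 hi]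
        ring
    · simp only [hn, false_and, if_false, Finset.sum_const_zero]
  have e4 : ∀ n : Fin 3 → ZMod 7, (4 * if n ≠ 0 ∧ n 0 ^ 2 + n 1 ^ 2 + n 2 ^ 2 = 0 then
        Ct N1 n β1 1 * Ct N2 n β2 (-ε) + Ct N1 n β1 (-1) * Ct N2 n β2 ε else 0) =
      if n ≠ 0 ∧ n 0 ^ 2 + n 1 ^ 2 + n 2 ^ 2 = 0 then
        2 * (t0 N1 β1 * t0 N2 β2 - ε * (g0 N1 β1 * g0 N2 β2)) else 0 := by
    intro n
    by_cases hn : n ≠ 0 ∧ n 0 ^ 2 + n 1 ^ 2 + n 2 ^ 2 = 0
    · rw [if_pos hn, if_pos hn]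
      have hε2 : ε * ε = 1 := by rcases hε with rfl | rfl <;> norm_num
      have hε' : -ε = 1 ∨ -ε = -1 := by
        rcases hε with rfl | rfl
        · exact Or.inr rfl
        · exact Or.inl (by norm_num)
      have hs : sgl n * sgl n = 1 := by
        rcases sgl_cases n with s | s <;> rw [s] <;> norm_num
      have k1 : 2 * Ct N1 n β1 1 = _ := h N1 hN1 β1 hβ1 n hn.1 hn.2 1 (Or.inl rfl)
      have k2 : 2 * Ct N1 n β1 (-1) = _ := h N1 hN1 β1 hβ1 n hn.1 hn.2 (-1) (Or.inr rfl)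
      have k3 : 2 * Ct N2 n β2 ε = _ := h N2 hN2 β2 hβ2 n hn.1 hn.2 ε hε
      have k4 : 2 * Ct N2 n β2 (-ε) = _ := h N2 hN2 β2 hβ2 n hn.1 hn.2 (-ε) hε'
      have e5 : 4 * (Ct N1 n β1 1 * Ct N2 n β2 (-ε) + Ct N1 n β1 (-1) * Ct N2 n β2 ε) =
          (2 * Ct N1 n β1 1) * (2 * Ct N2 n β2 (-ε)) + (2 * Ct N1 n β1 (-1)) * (2 * Ct N2 n β2 ε) := by
        ring
      rw [e5, k1, k2, k3, k4]
      linear_combination (-2 * ε * (g0 N1 β1 * g0 N2 β2)) * hs
    · rw [if_neg hn, if_neg hn, mul_zero]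
  have e6 : 24 * (((PL N1 N2 β1 β2).filter fun q => (4 : ℤ) ∣ q.1 ⬝ᵥ q.2 - ε).card : ℤ) =
      96 * (t0 N1 β1 * t0 N2 β2 - ε * (g0 N1 β1 * g0 N2 β2)) := by
    have e7 : 24 * (((PL N1 N2 β1 β2).filter fun q => (4 : ℤ) ∣ q.1 ⬝ᵥ q.2 - ε).card : ℤ) =
      4 * (6 * (((PL N1 N2 β1 β2).filter fun q => (4 : ℤ) ∣ q.1 ⬝ᵥ q.2 - ε).card : ℤ)) := by ring
    rw [e7, e3, Finset.mul_sum, Finset.sum_congr rfl fun n _ => e4 n, ← Finset.sum_filter,
      Finset.sum_const, Pool.Agent.Z419.card48, nsmul_eq_mul]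
    push_cast
    ring
  linarith

end Pool.Agent.Y441.ZN
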